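import Pool.Agent.N436.DF.Stm3

/-!
# Project DF (helper436), part DH/24: contradiction from the set of potential 5 (`S3_m1fin`)
-/

namespace Pool.Agent.N59.DF

open Finset Pool.Agent.N436.DF

variable {V : Type} [DecidableEq V]

theorem exists_le_sum {ι : Type} [DecidableEq ι] (A : Finset ι) (m : ι → ℤ) (hm : ∀ i, 0 ≤ m i)
    (n : ℕ) (h : (n : ℤ) ≤ ∑ i ∈ A, m i) :
    ∃ u : ι → ℤ, (∀ i, 0 ≤ u i ∧ u i ≤ m i) ∧ ∑ i ∈ A, u i = n := by
  induction n with
  | zero => exact ⟨fun _ => 0, fun i => ⟨le_rfl, hm i⟩, by simp⟩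
  | succ n ih =>
    push_cast at h
    obtain ⟨u, hu, hs⟩ := ih (by linarith)
    obtain ⟨i, hi, hlt⟩ : ∃ i ∈ A, u i < m i := by
      by_contra hcon
      push Not at hcon
      have := Finset.sum_le_sum hcon
      linarith
    refine ⟨fun k => u k + if k = i then 1 else 0, fun k => ?_, ?_⟩
    · by_cases hk : k = i
      · subst hk
        simp only [if_true]
        have := (hu k).1
        constructor <;> omega
      · simp only [hk, if_false, add_zero]
        exact hu k
    · rw [Finset.sum_add_distrib, hs, Finset.sum_ite_eq']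
      simp [hi]

omit [DecidableEq V] in
theorem sv_lb {H : Hub V} (hok : Ok P13 H) (f : V → Bool) (s : V → V → ℤ) (x z : V) :
    (if f x = true then 2 * H.m x z + 3 * min (H.m x z) (s x z)
      else 5 * min (H.m x z) (s x z)) ≤ sv H f s x z := by
  unfold sv
  have h : 0 ≤ (if H.r x z ≤ s x z then (if f x = true then 7 else 9) * H.r x z
    else (if f x = true then 2 else 0) : ℤ) := by
    rcases hok.r01 x z with h | h <;> rw [h] <;> split_ifs <;> norm_num
  linarith

omit [DecidableEq V] in
theorem sv_nn {H : Hub V} (hok : Ok P13 H) (f : V → Bool) (s : V → V → ℤ)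
    (x z : V) (hs : 0 ≤ s x z) : 0 ≤ sv H f s x z := by
  have h1 := sv_lb hok f s x z
  have h2 := hok.m_nn x z
  have h3 : 0 ≤ min (H.m x z) (s x z) := le_min h2 hs
  split_ifs at h1 <;> linarith

theorem glueC (hg : S3_glue) {H : Hub V} (hok : Ok P13 H) {X C : Finset V} (hd : Disjoint X C)
    {f g : V → Bool} {p q : V → V → ℤ} (hf : ColBy H X f p) (hgC : ColBy H C g q)
    (hl : ∀ z ∈ C, g z = true → load H C g q z + ∑ x ∈ X, H.m x z ≤ H.c (g z) z)
    (hr : ∀ x ∈ X, ∀ z ∈ C, f x = g z → H.r x z = 0)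
    (hm : ∀ x ∈ X, ∀ z ∈ C, f x = true → H.m x z = 0) :
    ∃ F P', ColBy H (X ∪ C) F P' ∧ (∀ x ∈ X, F x = f x) ∧ (∀ z ∈ C, F z = g z) ∧
      (∀ x ∈ X, load H (X ∪ C) F P' x ≤ load H X f p x) ∧
      (∀ z ∈ C, g z = false → load H (X ∪ C) F P' z ≤ load H C g q z) := by
  have hXC : (X ∪ C) \ X = C := by
    ext t
    simp only [mem_sdiff, mem_union]
    constructor
    · rintro ⟨h | h, h'⟩
      · exact absurd h h'
      · exact h
    · intro h
      exact ⟨Or.inr h, fun h' => Finset.disjoint_left.1 hd h' h⟩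
  have key := hg V H (X ∪ C) X f g p q (fun _ _ => 0)
    (fun z x => if g z = true ∧ f x = false then H.m x z else 0) hok Finset.subset_union_left hf
  rw [hXC] at key
  obtain ⟨F, P', h1, h2, h3, h4, h5⟩ := key hgC (fun _ _ => le_rfl)
    (fun z x => by
      split_ifs
      exacts [hok.m_nn x z, le_rfl])
    (fun x hx z hz h => by
      rw [hr x hx z hz h]
      refine ⟨le_rfl, ?_⟩
      split_ifs
      exacts [hok.m_nn x z, le_rfl])
    (fun x hx z hz h => by
      cases hfx : f x
      · have hgz : g z = true := by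
          cases hgz : g z
          · exact absurd (hfx.trans hgz.symm) h
          · rfl
        simp [hgz]
      · rw [hm x hx z hz hfx]
        simp)
    (fun x hx => by
      simp only [Finset.sum_const_zero, add_zero]
      exact hf.cap x hx)
    (fun z hz => by
      cases hgz : g z
      · simp only [Bool.false_eq_true, false_and, if_false, Finset.sum_const_zero, add_zero]
        have := hgC.cap z hz
        rw [hgz] at this
        exact this
      · have h6 := hl z hz hgz
        rw [hgz] at h6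
        refine le_trans (add_le_add le_rfl (Finset.sum_le_sum fun x _ => ?_)) h6
        split_ifs
        exacts [le_rfl, hok.m_nn x z])
  refine ⟨F, P', h1, h2, h3, fun x hx => ?_, fun z hz hgz => ?_⟩
  · have := h4 x hx
    simpa using this
  · have := h5 z hz
    simpa [hgz] using this

/-- kill for a closed proper set of potential 5: the whole complement is the obstacle -/
theorem killZ (hb : S3_base) (hk : S3_kill) {H : Hub V} {S Z : Finset V} (mc : MinCex P13 H S)
    (hZS : Z ⊆ S) (hne : Z.Nonempty) (h5 : hp H Z = 5)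
    {F : V → Bool} {P' s : V → V → ℤ} (hF : ColBy H Z F P') (hs : ∀ x z, 0 ≤ s x z)
    (hcap : ∀ x ∈ Z, load H Z F P' x + ∑ z ∈ S \ Z, s x z ≤ H.c (F x) x) :
    ∑ x ∈ Z, ∑ z ∈ S \ Z, sv H F s x z ≤ 4 := by
  obtain ⟨D, hD, hDne, hDle⟩ := hk V H S Z F P' s mc hZS hne hF hs hcap
  obtain ⟨-, -, -, -, hb5⟩ := hb V H mc.ok
  obtain ⟨hb6, hb7⟩ := hb5 S mc
  have hnn : 0 ≤ ∑ x ∈ Z, ∑ z ∈ D, sv H F s x z :=
    Finset.sum_nonneg fun x _ => Finset.sum_nonneg fun z _ => sv_nn mc.ok F s x z (hs x z)
  have hZD : Z ∪ D ⊆ S := Finset.union_subset hZS (hD.trans Finset.sdiff_subset)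
  have hne' : (Z ∪ D).Nonempty := hne.mono Finset.subset_union_left
  by_cases hSD : Z ∪ D = S
  · have hDeq : D = S \ Z := by
      refine Finset.Subset.antisymm hD fun t ht => ?_
      have h1 := (Finset.mem_sdiff.1 ht).1
      rw [← hSD] at h1
      rcases Finset.mem_union.1 h1 with h2 | h2
      · exact absurd h2 (Finset.mem_sdiff.1 ht).2
      · exact h2
    have h1 := hb6 (Z ∪ D) hZD hne'
    rw [← hDeq]
    linarith
  · have h1 := (hb7 (Z ∪ D) hZD hne' hSD).2
    linarith

theorem m1fin (hb : S3_base) (hs : S3_state) (hk : S3_kill) (hg : S3_glue) (hst : S3_m1st)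
    (hp0 : S3_m1p0) : S3_m1fin := by
  intro V _ H S X C v w f p hM hcol hfv h4 hCS hwC hne hZ5 hn1
  have mc := hM.top.mc
  have hok := mc.ok
  have hXS := hM.top.sub
  obtain ⟨hb1, hb2, hb3, hb4, hb5⟩ := hb V H hok
  obtain ⟨hb6, hb7⟩ := hb5 S mc
  have hd : Disjoint X C := by
    rw [Finset.disjoint_left]
    intro t ht ht'
    exact (Finset.mem_sdiff.1 (hCS ht')).2 ht
  have hCS' : C ⊆ S := hCS.trans Finset.sdiff_subset
  have hZS : X ∪ C ⊆ S := Finset.union_subset hXS hCS'
  have hvC : v ∉ C := fun h => Finset.disjoint_left.1 hd hM.hv h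
  have hZne : (X ∪ C).Nonempty := ⟨v, Finset.mem_union_left _ hM.hv⟩
  have hQ : S \ X = C ∪ (S \ (X ∪ C)) := by
    ext t
    simp only [mem_sdiff, mem_union, not_or]
    constructor
    · rintro ⟨h1, h2⟩
      by_cases h3 : t ∈ C
      · exact Or.inl h3
      · exact Or.inr ⟨h1, h2, h3⟩
    · rintro (h | ⟨h1, h2, -⟩)
      · exact ⟨hCS' h, fun h' => Finset.disjoint_left.1 hd h' h⟩
      · exact ⟨h1, h2⟩
  have hdCQ : Disjoint C (S \ (X ∪ C)) := by
    rw [Finset.disjoint_left]
    intro t ht ht'
    exact (Finset.mem_sdiff.1 ht').2 (Finset.mem_union_right _ ht)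
  -- real edges
  have hr0 : ∀ x ∈ X, ∀ z ∈ S \ X, ¬ (x = v ∧ z = w) → H.r x z = 0 := by
    intro x hx z hz h
    rcases hok.r01 x z with h1 | h1
    · exact h1
    · exact absurd (hM.only x hx z hz h1) h
  have hrr : ∀ C', C' ⊆ S \ X → rr H X C' = if w ∈ C' then 1 else 0 := by
    intro C' hC'
    unfold rr
    have h1 : ∀ x ∈ X, ∑ z ∈ C', H.r x z = if x = v then (if w ∈ C' then 1 else 0) else 0 := by
      intro x hx
      by_cases hxv : x = v
      · subst hxv
        rw [if_pos rfl]
        have h2 : ∀ z ∈ C', H.r x z = if z = w then 1 else 0 := by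
          intro z hz
          by_cases hzw : z = w
          · rw [hzw, if_pos rfl, hM.hr]
          · rw [if_neg hzw]
            exact hr0 x hx z (hC' hz) (fun h => hzw h.2)
        rw [Finset.sum_congr rfl h2, Finset.sum_ite_eq']
      · rw [if_neg hxv]
        exact Finset.sum_eq_zero fun z hz => hr0 x hx z (hC' hz) (fun h => hxv h.1)
    rw [Finset.sum_congr rfl h1, Finset.sum_ite_eq']
    simp [hM.hv]
  have hhpC : ∀ C', C' ⊆ S \ X → hp H (X ∪ C') =
      8 + hp H C' - 12 * (if w ∈ C' then 1 else 0) - 5 * mm H X C' := by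
    intro C' hC'
    have hd' : Disjoint X C' := by
      rw [Finset.disjoint_left]
      intro t ht ht'
      exact (Finset.mem_sdiff.1 (hC' ht')).2 ht
    rw [hb2 X C' hd', hrr C' hC', hM.top.h8]
  have hnRB : ¬ RB H S (X ∪ C) := by
    intro h
    have := hM.top.rb8 _ hZS h
    omega
  have hS0 : hp H S + 5 ≤ 5 := by
    have := (hb7 _ hZS hZne hne).1
    rwa [hZ5] at this
  have hpC : hp H C = 9 + 5 * mm H X C := by
    have h1 := hhpC C hCS
    rw [hZ5, if_pos hwC] at h1
    linarith
  -- (1)
  obtain ⟨y, hyC, q₀, hq₀, hyq⟩ : ∃ y ∈ C, ∃ q₀ ∈ S \ (X ∪ C), 1 ≤ H.m y q₀ := by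
    by_contra hcon
    push Not at hcon
    have hm0 : ∀ y ∈ C, ∀ t ∈ S \ (X ∪ C), H.m y t = 0 := by
      intro y hy t ht
      have := hcon y hy t ht
      have := hok.m_nn y t
      omega
    have hr0' : ∀ y ∈ C, ∀ t ∈ S \ (X ∪ C), H.r y t = 0 := by
      intro y hy t ht
      rcases hok.r01 y t with h1 | h1
      · exact h1
      · exact absurd ⟨y, Finset.mem_union_right _ hy, t, ht, h1⟩ hnRB
    have hSC : S \ C = X ∪ (S \ (X ∪ C)) := by
      ext t
      simp only [mem_sdiff, mem_union, not_or]
      constructor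
      · rintro ⟨h1, h2⟩
        by_cases h3 : t ∈ X
        · exact Or.inl h3
        · exact Or.inr ⟨h1, h3, h2⟩
      · rintro (h | ⟨h1, -, h2⟩)
        · exact ⟨hXS h, fun h' => Finset.disjoint_left.1 hd h h'⟩
        · exact ⟨h1, h2⟩
    have hdXQ : Disjoint X (S \ (X ∪ C)) := by
      rw [Finset.disjoint_left]
      intro t ht ht'
      exact (Finset.mem_sdiff.1 ht').2 (Finset.mem_union_left _ ht)
    have h1 : S \ C ∪ C = S := Finset.sdiff_union_of_subset hCS'
    have h2 := hb2 (S \ C) C Finset.sdiff_disjoint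
    rw [h1] at h2
    have h3 : rr H (S \ C) C = 1 := by
      have h4 := hrr C hCS
      rw [if_pos hwC] at h4
      rw [hSC]
      unfold rr at h4 ⊢
      rw [Finset.sum_union hdXQ, h4]
      have h5 : ∑ x ∈ S \ (X ∪ C), ∑ z ∈ C, H.r x z = 0 :=
        Finset.sum_eq_zero fun x hx => Finset.sum_eq_zero fun z hz => by
          rw [hok.rsymm]
          exact hr0' z hz x hx
      rw [h5, add_zero]
    have h4 : mm H (S \ C) C = mm H X C := by
      rw [hSC]
      unfold mm
      rw [Finset.sum_union hdXQ]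
      have h5 : ∑ x ∈ S \ (X ∪ C), ∑ z ∈ C, H.m x z = 0 :=
        Finset.sum_eq_zero fun x hx => Finset.sum_eq_zero fun z hz => by
          rw [hok.msymm]
          exact hm0 z hz x hx
      rw [h5, add_zero]
    rw [h3, h4, hpC] at h2
    have h5 : RB H S (S \ C) := by
      refine ⟨v, Finset.mem_sdiff.2 ⟨hXS hM.hv, hvC⟩, w, ?_, hM.hr⟩
      exact Finset.mem_sdiff.2 ⟨hCS' hwC, fun h => (Finset.mem_sdiff.1 h).2 hwC⟩
    have h6 := hM.top.rb8 _ Finset.sdiff_subset h5
    omega
  -- (2)
  obtain ⟨g, q, hgC, hload⟩ := hs V H S C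
    (fun i z => if i = true then ∑ x ∈ X, H.m x z else
      (if z = w then 1 else 0) + (if z = y then 1 else 0)) mc hCS'
    (by
      intro h
      rw [h] at hvC
      exact hvC (hXS hM.hv))
    (by
      intro i x
      split_ifs
      · exact Finset.sum_nonneg fun t _ => hok.m_nn t x
      all_goals norm_num)
    (by
      intro C' hC' hC'ne
      have hC'S : C' ⊆ S \ X := hC'.trans hCS
      have hcost : cost (fun i z => if i = true then ∑ x ∈ X, H.m x z else
          (if z = w then 1 else 0) + (if z = y then 1 else 0)) C' =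
          5 * mm H X C' + 3 * (if w ∈ C' then 1 else 0) + 3 * (if y ∈ C' then 1 else 0) := by
        unfold cost mm
        simp only [if_true, Bool.false_eq_true, if_false]
        rw [Finset.sum_add_distrib, ← Finset.mul_sum, ← Finset.mul_sum, Finset.sum_add_distrib,
          Finset.sum_ite_eq', Finset.sum_ite_eq', Finset.sum_comm]
        ring
      rw [hcost]
      have h1 := hhpC C' hC'S
      have hXC'S : X ∪ C' ⊆ S := Finset.union_subset hXS (hC'.trans hCS')
      have h7 : (if y ∈ C' then (1 : ℤ) else 0) ≤ 1 := by split_ifs <;> norm_num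
      by_cases hw' : w ∈ C'
      · rw [if_pos hw'] at h1 ⊢
        have h2 : X ∪ C' ≠ S := by
          intro h
          apply hne
          refine Finset.Subset.antisymm hZS ?_
          rw [← h]
          exact Finset.union_subset_union_right hC'
        have h3 := (hb7 _ hXC'S ⟨v, Finset.mem_union_left _ hM.hv⟩ h2).2
        linarith
      · rw [if_neg hw'] at h1 ⊢
        obtain ⟨t, ht⟩ := hC'ne
        have htX : t ∉ X := (Finset.mem_sdiff.1 (hC'S ht)).2
        have h2 : X ⊂ X ∪ C' := by
          refine Finset.ssubset_iff_subset_ne.2 ⟨Finset.subset_union_left, fun h => htX ?_⟩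
          rw [h]
          exact Finset.mem_union_right _ ht
        have h3 : RB H S (X ∪ C') := by
          refine ⟨v, Finset.mem_union_left _ hM.hv, w, ?_, hM.hr⟩
          rw [Finset.mem_sdiff]
          refine ⟨hCS' hwC, fun h => ?_⟩
          rcases Finset.mem_union.1 h with h | h
          · exact (Finset.mem_sdiff.1 hM.hw).2 h
          · exact hw' h
        have h4 := hM.top.max _ h2 hXC'S h3
        linarith)
  have hn1C : ∀ x ∈ X, ∀ z ∈ C, f x = true → H.m x z = 0 := by
    intro x hx z hz hfx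
    unfold n1 at hn1
    have h1 := (Finset.sum_eq_zero_iff_of_nonneg (fun x _ =>
      Finset.sum_nonneg fun z _ => hok.m_nn x z)).1 hn1 x (Finset.mem_filter.2 ⟨hx, hfx⟩)
    exact (Finset.sum_eq_zero_iff_of_nonneg (fun z _ => hok.m_nn x z)).1 h1 z hz
  have hl1 : ∀ z ∈ C, g z = true → load H C g q z + ∑ x ∈ X, H.m x z ≤ H.c (g z) z := by
    intro z hz hgz
    have h1 := (hload z hz).1
    rw [hgz] at h1 ⊢
    simpa using h1
  cases hgw : g w
  · -- (4)
    have hwt : ∀ i : V × V, 0 ≤ (if f i.1 = true then H.m i.1 i.2 else 0) := by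
      intro i
      split_ifs
      exacts [hok.m_nn _ _, le_rfl]
    obtain ⟨u₀, hu₀, hu₀s⟩ := exists_le_sum (X ×ˢ (S \ X))
      (fun i : V × V => if f i.1 = true then H.m i.1 i.2 else 0) hwt 2 (by
        rw [Finset.sum_product]
        have h8 : n1 H X (S \ X) f =
            ∑ x ∈ X, ∑ z ∈ S \ X, (if f x = true then H.m x z else 0) := by
          unfold n1
          rw [Finset.sum_filter]
          refine Finset.sum_congr rfl fun x _ => ?_
          split_ifs
          · rfl
          · simp
        rw [← h8]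
        push_cast
        linarith)
    rw [Finset.sum_product] at hu₀s
    push_cast at hu₀s
    have hu1 : ∀ x z, 0 ≤ u₀ (x, z) ∧ u₀ (x, z) ≤ H.m x z := by
      intro x z
      refine ⟨(hu₀ (x, z)).1, le_trans (hu₀ (x, z)).2 ?_⟩
      dsimp only
      split_ifs
      exacts [le_rfl, hok.m_nn _ _]
    have huC : ∀ x ∈ X, ∀ z ∈ C, u₀ (x, z) = 0 := by
      intro x hx z hz
      have h8 := hu₀ (x, z)
      dsimp only at h8
      split_ifs at h8 with h9
      · rw [hn1C x hx z hz h9] at h8
        omega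
      · omega
    obtain ⟨f₁, p₁, s₁, hUS, hf1v, hav⟩ := (hst V H S X v w hM).2.2 (fun x z => u₀ (x, z)) hu1
      (le_of_eq hu₀s)
    have havle := hp0 V H S X v w f₁ p₁ s₁ hM hUS hf1v
    have haveq : ∀ x ∈ X, ∀ z ∈ S \ X, av H f₁ s₁ x z = u₀ (x, z) := by
      have h8 : ∑ x ∈ X, ∑ z ∈ S \ X, (av H f₁ s₁ x z - u₀ (x, z)) ≤ 0 := by
        simp only [Finset.sum_sub_distrib]
        linarith
      have h9 : ∀ x ∈ X, 0 ≤ ∑ z ∈ S \ X, (av H f₁ s₁ x z - u₀ (x, z)) := fun x hx =>
        Finset.sum_nonneg fun z hz => by linarith [hav x hx z hz]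
      intro x hx z hz
      have h10 := (Finset.sum_eq_zero_iff_of_nonneg h9).1
        (le_antisymm h8 (Finset.sum_nonneg h9)) x hx
      have h11 := (Finset.sum_eq_zero_iff_of_nonneg (fun z hz => by
        linarith [hav x hx z hz])).1 h10 z hz
      linarith
    have hm1 : ∀ x ∈ X, ∀ z ∈ C, f₁ x = true → H.m x z = 0 := by
      intro x hx z hz h
      have h8 := haveq x hx z (hCS hz)
      rw [huC x hx z hz] at h8
      unfold av at h8
      rwa [if_pos h] at h8
    obtain ⟨F, P', h1, h2, h3, h4', h5'⟩ := glueC hg hok hd hUS.col hgC hl1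
      (fun x hx z hz h => by
        refine hr0 x hx z (hCS hz) ?_
        rintro ⟨rfl, rfl⟩
        rw [hf1v, hgw] at h
        exact absurd h (by decide))
      hm1
    have hyX : y ∉ X := (Finset.mem_sdiff.1 (hCS hyC)).2
    have hyZ : y ∈ X ∪ C := Finset.mem_union_right _ hyC
    obtain ⟨s', hs'⟩ : ∃ s' : V → V → ℤ, ∀ x z, s' x z = if x ∈ X then s₁ x z else
        if x = y ∧ z = q₀ ∧ g y = false then 1 else 0 := ⟨_, fun _ _ => rfl⟩
    have hs'nn : ∀ x z, 0 ≤ s' x z := by
      intro x z
      rw [hs']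
      split_ifs
      exacts [hUS.nn x z, by norm_num, le_rfl]
    have h5 := killZ hb hk mc hZS hZne hZ5 h1 hs'nn
      (fun x hx => by
        by_cases hxX : x ∈ X
        · simp only [hs', hxX, if_true]
          rw [h2 x hxX]
          refine le_trans (add_le_add (h4' x hxX) ?_) (hUS.cap x hxX)
          refine Finset.sum_le_sum_of_subset_of_nonneg
            (Finset.sdiff_subset_sdiff le_rfl Finset.subset_union_left) fun z _ _ => hUS.nn x z
        · simp only [hs', hxX, if_false]
          by_cases hxy : x = y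
          · subst hxy
            cases hgy : g x
            · have h8 := (hload x hyC).1
              have h9 := h5' x hyC hgy
              rw [h3 x hyC, hgy]
              rw [hgy] at h8
              have h10 : ∑ z ∈ S \ (X ∪ C), (if x = x ∧ z = q₀ ∧ false = false then (1 : ℤ)
                  else 0) = 1 := by
                simp only [true_and, and_true]
                rw [Finset.sum_ite_eq']
                rw [if_pos hq₀]
              rw [h10]
              simp only [Bool.false_eq_true, if_false, if_true] at h8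
              have h11 : (0 : ℤ) ≤ if x = w then 1 else 0 := by split_ifs <;> norm_num
              linarith
            · simp only [Bool.true_eq_false, and_false, if_false,
                Finset.sum_const_zero, add_zero]
              exact h1.cap x hx
          · simp only [hxy, false_and, if_false, Finset.sum_const_zero, add_zero]
            exact h1.cap x hx)
    have h6 : ∀ x ∈ X, ∀ z ∈ S \ (X ∪ C), 2 * u₀ (x, z) ≤ sv H F s' x z := by
      intro x hx z hz
      have h8 := sv_lb hok F s' x z
      rw [hs', if_pos hx, h2 x hx, min_eq_right (hUS.le x z)] at h8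
      have h9 := hav x hx z (by rw [hQ]; exact Finset.mem_union_right _ hz)
      have h10 := hUS.nn x z
      have h11 := (hu1 x z).1
      unfold av at h9
      split_ifs at h8 h9 <;> linarith
    have h7 : 2 ≤ ∑ x ∈ C, ∑ z ∈ S \ (X ∪ C), sv H F s' x z := by
      have h8 : ∀ x ∈ C, ∀ z ∈ S \ (X ∪ C), 0 ≤ sv H F s' x z :=
        fun x _ z _ => sv_nn hok F _ x z (hs'nn x z)
      refine le_trans ?_ (Finset.single_le_sum (fun x hx => Finset.sum_nonneg (h8 x hx)) hyC)
      refine le_trans ?_ (Finset.single_le_sum (h8 y hyC) hq₀)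
      have h9 := sv_lb hok F s' y q₀
      rw [hs', if_neg hyX, h3 y hyC] at h9
      cases hgy : g y
      · simp only [hgy, Bool.false_eq_true, if_false, and_self, if_true] at h9
        rw [min_eq_right hyq] at h9
        linarith
      · simp only [hgy, if_true, Bool.true_eq_false, and_false, if_false] at h9
        rw [min_eq_right (by linarith : (0 : ℤ) ≤ H.m y q₀)] at h9
        linarith
    have h8 : ∑ x ∈ X, ∑ z ∈ S \ (X ∪ C), 2 * u₀ (x, z) = 4 := by
      have h9 : ∑ x ∈ X, ∑ z ∈ S \ X, u₀ (x, z) =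
          ∑ x ∈ X, ∑ z ∈ S \ (X ∪ C), u₀ (x, z) := by
        refine Finset.sum_congr rfl fun x hx => ?_
        have h10 : ∑ z ∈ S \ X, u₀ (x, z) =
            ∑ z ∈ C, u₀ (x, z) + ∑ z ∈ S \ (X ∪ C), u₀ (x, z) := by
          rw [← Finset.sum_union hdCQ, ← hQ]
        rw [h10, Finset.sum_eq_zero fun z hz => huC x hx z hz, zero_add]
      simp only [← Finset.mul_sum]
      rw [← h9, hu₀s]
      norm_num
    have h9 := Finset.sum_le_sum fun x hx => Finset.sum_le_sum (h6 x hx)
    rw [h8] at h9
    rw [Finset.sum_union hd] at h5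
    linarith
  · -- (3)
    obtain ⟨F, P', h1, h2, h3, -, -⟩ := glueC hg hok hd hcol hgC hl1
      (fun x hx z hz h => by
        refine hr0 x hx z (hCS hz) ?_
        rintro ⟨rfl, rfl⟩
        rw [hfv, hgw] at h
        exact absurd h (by decide))
      hn1C
    have h5 := killZ hb hk mc hZS hZne hZ5 h1 (s := fun _ _ => 0) (fun _ _ => le_rfl)
      (fun x hx => by
        simp only [Finset.sum_const_zero, add_zero]
        exact h1.cap x hx)
    have h6 : 2 * n1 H X (S \ (X ∪ C)) f ≤
        ∑ x ∈ X ∪ C, ∑ z ∈ S \ (X ∪ C), sv H F (fun _ _ => 0) x z := by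
      have h8 : 0 ≤ ∑ x ∈ C, ∑ z ∈ S \ (X ∪ C), sv H F (fun _ _ => 0) x z :=
        Finset.sum_nonneg fun x _ => Finset.sum_nonneg fun z _ => sv_nn hok F _ x z le_rfl
      rw [Finset.sum_union hd]
      unfold n1
      rw [Finset.sum_filter, Finset.mul_sum]
      refine le_add_of_le_of_nonneg (Finset.sum_le_sum fun x hx => ?_) h8
      have h9 : ∀ z ∈ S \ (X ∪ C), (if f x = true then 2 * H.m x z else 0) ≤
          sv H F (fun _ _ => 0) x z := by
        intro z _
        have h10 := sv_lb hok F (fun _ _ => 0) x z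
        rw [h2 x hx, min_eq_right (hok.m_nn x z)] at h10
        simpa using h10
      refine le_trans ?_ (Finset.sum_le_sum h9)
      split_ifs
      · rw [Finset.mul_sum]
      · simp
    have h7 : n1 H X (S \ X) f = n1 H X (S \ (X ∪ C)) f := by
      have h8 : n1 H X (S \ X) f = n1 H X C f + n1 H X (S \ (X ∪ C)) f := by
        unfold n1
        rw [← Finset.sum_add_distrib]
        refine Finset.sum_congr rfl fun x _ => ?_
        rw [hQ, Finset.sum_union hdCQ]
      rw [h8, hn1, zero_add]
    omega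

end Pool.Agent.N59.DF
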